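import Mathlib
import Pool.Agent.MP_8bfff4_mp.Defs
import Pool.Agent.MP_8bfff4_mp.Transl
import Pool.Agent.MP_8bfff4_mp.Lower
import Pool.Agent.MP_8bfff4_mp.PartII

/-!
The maximal primitivity index of quantum channels on `D × D` matrices is exactly `D ^ 2 - D + 1`.

* Upper bound: `Pool.Agent.PrimIdx.upper` (files `Gen`, `Win`, `PartI`, `Chain`, `Comm`, `LieBound`,
  `Conj`, `Full`, `PartII`).
* Lower bound: the channel with the two Kraus operators `N = ∑ |i+1⟩⟨i|` and
  `P = |(e₀ + e₁)/√2⟩⟨e_{D-1}|` (file `Lower`).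
* Translation between full rank outputs and spans of words: file `Transl`.
-/

namespace Pool.Agent.Results.MP_8bfff4_mp.ExactPrimitivityIndex

open Pool.Agent.PrimIdx
open Matrix
open scoped ComplexOrder

/-- monotonicity -/
lemma full_succ {D : ℕ} (hD : 2 ≤ D) {A : Submodule ℂ (Mt D)} {n : ℕ}
    (h : ∀ v : Fin D → ℂ, v ≠ 0 → (A ^ n).map (ev v) = ⊤) :
    ∀ v : Fin D → ℂ, v ≠ 0 → (A ^ (n + 1)).map (ev v) = ⊤ := by
  intro v hv
  by_cases hX : ∃ X ∈ A, X *ᵥ v ≠ 0
  · obtain ⟨X, hX, hXv⟩ := hX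
    rw [eq_top_iff]
    intro w _
    have : w ∈ (A ^ n).map (ev (X *ᵥ v)) := by rw [h _ hXv]; trivial
    exact orb_step' hX this
  · push Not at hX
    exfalso
    have hn : n ≠ 0 := by
      rintro rfl
      -- `A ^ 0 v` is at most one-dimensional
      have h1 := h v hv
      rw [pow_zero] at h1
      have h2 : Module.finrank ℂ (((1 : Submodule ℂ (Mt D))).map (ev v)) ≤ 1 := by
        rw [Submodule.one_eq_span, Submodule.map_span, Set.image_singleton]
        exact (finrank_span_le_card _).trans (by simp)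
      rw [h1, finrank_top, Module.finrank_fintype_fun_eq_card, Fintype.card_fin] at h2
      omega
    obtain ⟨m, rfl⟩ := Nat.exists_eq_succ_of_ne_zero hn
    have h1 : (A ^ (m + 1)).map (ev v) = ⊥ := by
      rw [eq_bot_iff]
      rintro _ ⟨Z, hZ, rfl⟩
      rw [Submodule.mem_bot, ev_apply]
      rw [pow_succ] at hZ
      induction hZ using Submodule.mul_induction_on' with
      | mem_mul_mem X hX' Y hY => rw [← Matrix.mulVec_mulVec, hX Y hY, Matrix.mulVec_zero]
      | add X _ Y _ hX hY => rw [Matrix.add_mulVec, hX, hY, add_zero]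
    rw [h v hv] at h1
    have h2 : v ∈ (⊤ : Submodule ℂ (Fin D → ℂ)) := trivial
    rw [h1, Submodule.mem_bot] at h2
    exact hv h2

lemma full_le {D : ℕ} (hD : 2 ≤ D) {A : Submodule ℂ (Mt D)} {n m : ℕ} (hnm : n ≤ m)
    (h : ∀ v : Fin D → ℂ, v ≠ 0 → (A ^ n).map (ev v) = ⊤) :
    ∀ v : Fin D → ℂ, v ≠ 0 → (A ^ m).map (ev v) = ⊤ := by
  induction m, hnm using Nat.le_induction with
  | base => exact h
  | succ m _ ih => exact full_succ hD ih

/-- The upper bound for channels. -/
theorem primIndex_le {D : ℕ} (hD : 2 ≤ D) (T : Module.End ℂ (Mt D)) (hT : IsChannel T)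
    (hp : IsPrimitive T) : primIndex T ≤ D ^ 2 - D + 1 := by
  obtain ⟨d, K, _, hK⟩ := hT
  obtain ⟨p, hp⟩ := hp
  apply Nat.sInf_le
  show FullAt T _
  rw [fullAt_iff K T hK] at hp ⊢
  exact upper hD p hp

/-- the extremal channel -/
noncomputable def exT (D : ℕ) : Module.End ℂ (Mt D) :=
  ∑ i, (LinearMap.mulLeft ℂ (exK D i)).comp (LinearMap.mulRight ℂ (exK D i)ᴴ)

lemma exT_apply (D : ℕ) (X : Mt D) : exT D X = ∑ i, exK D i * X * (exK D i)ᴴ := by
  rw [exT, LinearMap.sum_apply]
  refine Finset.sum_congr rfl fun i _ => ?_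
  rw [LinearMap.comp_apply, LinearMap.mulLeft_apply, LinearMap.mulRight_apply, Matrix.mul_assoc]

theorem exT_channel {D : ℕ} (hD : 2 ≤ D) : IsChannel (exT D) :=
  ⟨2, exK D, kraus_sum hD, exT_apply D⟩

theorem exT_primitive {D : ℕ} (hD : 2 ≤ D) : IsPrimitive (exT D) :=
  ⟨D + D ^ 2 + D, (fullAt_iff (exK D) (exT D) (exT_apply D) _).mpr (ex_primitive hD)⟩

theorem exT_index {D : ℕ} (hD : 2 ≤ D) : primIndex (exT D) = D ^ 2 - D + 1 := by
  refine le_antisymm (primIndex_le hD _ (exT_channel hD) (exT_primitive hD)) ?_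
  have hne : {n | FullAt (exT D) n}.Nonempty := exT_primitive hD
  have hmem : FullAt (exT D) (primIndex (exT D)) := Nat.sInf_mem hne
  by_contra hlt
  push Not at hlt
  rw [fullAt_iff (exK D) (exT D) (exT_apply D)] at hmem
  have h1 := full_le hD (by omega : primIndex (exT D) ≤ D ^ 2 - D) hmem (be D 0) (by
    intro h0
    have := congrArg (alt D) h0
    rw [alt_be (by omega), map_zero, pow_zero] at this
    exact one_ne_zero this)
  exact not_full hD h1

/-- For every `D ≥ 2`, `D ^ 2 - D + 1` is the greatest element of the set of primitivity indices of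
primitive quantum channels on the complex `D × D` matrices. -/
theorem result (D : ℕ) (hD : 2 ≤ D) :
    IsGreatest {p : ℕ | ∃ T : Module.End ℂ (Matrix (Fin D) (Fin D) ℂ),
      IsChannel T ∧ IsPrimitive T ∧ primIndex T = p} (D ^ 2 - D + 1) := by
  constructor
  · exact ⟨exT D, exT_channel hD, exT_primitive hD, exT_index hD⟩
  · rintro p ⟨T, hT, hp, rfl⟩
    exact primIndex_le hD T hT hp

end Pool.Agent.Results.MP_8bfff4_mp.ExactPrimitivityIndex
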